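import Pool.Agent.Helper56.Un.E8Stmts
import Pool.Agent.Helper86.Lor.RED8
import Pool.Agent.Helper64.Lor.DISC

set_option autoImplicit false

/-!
# E_CELL: the Delaunay cells of the root lattice `E₈`
-/

namespace Pool.Agent.Helper2.ECell

open Pool.Agent.Helper10.Lor

open Pool.Agent.Helper13.Lor (act_mem vec_act uval_act uval_w0 uval_pos form_w0)
open Pool.Agent.Helper77.Lor (hv hv_apply hv_mem hv_inj wv wv_mem uval_wv AS AS_par AS_sum AS_inj
  AC AC_par AC_sum AC_inj dist_hv dist_AS dist_AC evenLat_E8)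

theorem ecell_form_self (x : LV 8) : form x x = ‖x.2.2‖ ^ 2 - 2 * x.1 * x.2.1 := by
  unfold form
  rw [real_inner_self_eq_norm_sq]
  ring

theorem ecell_key (w : LV 8) {p : Pt 8} (hp : p ∈ UH 8) (hf : form w w = 0) :
    uval w p * p.2 * (2 * w.1) = ‖w.2.2 - w.1 • p.1‖ ^ 2 + w.1 ^ 2 * p.2 ^ 2 := by
  have hp' : (0 : ℝ) < p.2 := hp
  rw [ecell_form_self] at hf
  have e1 : uval w p * p.2 = w.2.1 - inner ℝ w.2.2 p.1 + w.1 * ‖p.1‖ ^ 2 / 2 +
      w.1 * p.2 ^ 2 / 2 := by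
    unfold uval form vec
    dsimp only
    rw [inner_smul_left, conj_trivial, real_inner_comm w.2.2 p.1]
    field_simp
    ring
  rw [e1, @norm_sub_sq_real, inner_smul_right, norm_smul, mul_pow, Real.norm_eq_abs, sq_abs]
  linarith

/-- a cusp vector with inverse height at most `1 / 2` at a point of height `2` is `w0` -/
theorem ecell_w0 {γ : LV 8 ≃ₗ[ℝ] LV 8} (hγ : γ ∈ OL E8) {p : Pt 8} (hp2 : p.2 = 2)
    (h : uval (γ w0) p ≤ 1 / 2) : γ w0 = w0 := by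
  have hp : p ∈ UH 8 := by
    show (0 : ℝ) < p.2
    rw [hp2]; norm_num
  have hw0 : (w0 : LV 8) ∈ lat E8 := ⟨⟨0, by simp [w0]⟩, ⟨1, by simp [w0]⟩, E8.zero_mem⟩
  obtain ⟨⟨a, ha⟩, ⟨b, hb⟩, hv3⟩ := (hγ.2 _).2 hw0
  have hf : form (γ (w0 : LV 8)) (γ w0) = 0 := by
    rw [hγ.1.1]
    simp [form, w0]
  have hpos : 0 < uval (γ w0) p := uval_pos (L := E8) ⟨γ, hγ, rfl⟩ hp
  have key := ecell_key (γ w0) hp hf
  rw [ecell_form_self] at hf
  by_cases h0 : (γ (w0 : LV 8)).1 = 0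
  · rw [h0] at hf
    have h1 : ‖(γ (w0 : LV 8)).2.2‖ ^ 2 = 0 := by linarith
    have h2 : (γ (w0 : LV 8)).2.2 = 0 := by
      rw [← norm_eq_zero]
      exact pow_eq_zero_iff (two_ne_zero) |>.1 h1
    have h3 : uval (γ w0) p = (b : ℝ) / 2 := by
      unfold uval form vec
      rw [h2, h0, hb, hp2]
      simp
      ring
    rw [h3] at h hpos
    have h4 : b = 1 := by
      have h5 : (b : ℝ) ≤ 1 := by linarith
      have h6 : (0 : ℝ) < b := by linarith
      have h7 : b ≤ 1 := by exact_mod_cast h5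
      have h8 : 0 < b := by exact_mod_cast h6
      omega
    refine Prod.ext ?_ (Prod.ext ?_ ?_)
    · rw [h0]; rfl
    · rw [hb, h4]; simp [w0]
    · rw [h2]; rfl
  · exfalso
    set w : LV 8 := γ w0 with hw
    have hwpos : 0 < w.1 := by
      have h5 : 0 < ‖w.2.2 - w.1 • p.1‖ ^ 2 + w.1 ^ 2 * p.2 ^ 2 := by
        have h6 : 0 < w.1 ^ 2 := by positivity
        rw [hp2]
        positivity
      rw [← key] at h5
      have h6 : 0 < uval w p * p.2 := mul_pos hpos hp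
      by_contra hcon
      push Not at hcon
      nlinarith
    have hw1 : 1 ≤ w.1 := by
      rw [ha] at hwpos ⊢
      have h5 : 0 < a := by exact_mod_cast hwpos
      exact_mod_cast h5
    have h6 : w.1 ^ 2 * p.2 ^ 2 ≤ uval w p * p.2 * (2 * w.1) := by
      rw [key]
      have := sq_nonneg ‖w.2.2 - w.1 • p.1‖
      linarith
    rw [hp2] at h6
    have h7 : w.1 ≤ uval w p := by
      have h8 : w.1 * (4 * w.1) ≤ uval w p * (4 * w.1) := by nlinarith
      exact le_of_mul_le_mul_right h8 (by positivity)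
    linarith

/-- coordinates of a lattice vector -/
theorem ecell_hv {v : E 8} (h : v ∈ E8) : ∃ A : Fin 8 → ℤ, hv A = v ∧
    Pool.Agent.Helper19.Un.GA A := by
  obtain ⟨h1, m, hm⟩ := h
  rcases h1 with h1 | h1
  · choose k hk using h1
    refine ⟨fun i => 2 * k i, ?_, Or.inl fun i => by show (2 * k i) % 2 = 0; omega, ?_⟩
    · ext i
      rw [hv_apply, hk i]
      push_cast
      ring
    · have h2 : (∑ i, (k i : ℝ)) = 2 * m := by
        rw [← hm]
        exact Finset.sum_congr rfl (fun i _ => (hk i).symm)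
      have h3 : ∑ i, k i = 2 * m := by exact_mod_cast h2
      rw [← Finset.mul_sum, h3]
      omega
  · choose k hk using h1
    refine ⟨fun i => 2 * k i + 1, ?_,
      Or.inr fun i => by show (2 * k i + 1) % 2 = 1; omega, ?_⟩
    · ext i
      rw [hv_apply, hk i]
      push_cast
      ring
    · have h2 : (∑ i, ((2 * k i + 1 : ℤ) : ℝ)) = 4 * m := by
        have h4 : ∑ i, v i = ∑ i, ((2 * k i + 1 : ℤ) : ℝ) / 2 := by
          refine Finset.sum_congr rfl (fun i _ => ?_)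
          rw [hk i]
          push_cast
          ring
        rw [← Finset.sum_div, hm] at h4
        linarith
      have h3 : ∑ i, (2 * k i + 1) = 4 * m := by exact_mod_cast h2
      rw [h3]
      omega

theorem ecell_sq8 (z : Fin 8 → ℝ) (A : Fin 8 → ℤ) :
    Pool.Agent.Helper19.Un.sq8 z A = ‖(WithLp.toLp 2 z : E 8) - hv A‖ ^ 2 := by
  rw [dist_hv]
  rfl

theorem ecell_main (z : Fin 8 → ℝ) : ∃ (q : E 8) (f : E 8 → Fin 8 → ℤ),
    (∀ v ∈ E8, Pool.Agent.Helper19.Un.GA (f v) ∧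
      Pool.Agent.Helper19.Un.sq8 z (f v) = ‖q - v‖ ^ 2) ∧
    (∀ v ∈ E8, ∀ v' ∈ E8, f v = f v' → v = v') ∧
    ((|q 0 - 1| + |q 1| + |q 2| + |q 3| + |q 4| + |q 5| + |q 6| + |q 7| ≤ 1) ∨
       ∃ l : Fin 9 → ℝ, (∀ j, 0 ≤ l j) ∧ l 0 + l 1 + l 2 + l 3 + l 4 + l 5 + l 6 + l 7 + l 8 = 1 ∧
        q 0 = l 1 + l 2 + l 3 + l 4 + l 5 + l 6 + l 7 + l 8 / 2 ∧
        q 1 = l 1 + l 8 / 2 ∧ q 2 = l 2 + l 8 / 2 ∧ q 3 = l 3 + l 8 / 2 ∧ q 4 = l 4 + l 8 / 2 ∧
        q 5 = l 5 + l 8 / 2 ∧ q 6 = l 6 + l 8 / 2 ∧ q 7 = l 7 + l 8 / 2) := by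
  classical
  have hLF : Pool.Agent.Helper86.Lor.LocFin := fun hL _ hp C a ha =>
    Pool.Agent.Helper64.Lor.local_finite hL hp C a ha
  set p : Pt 8 := (WithLp.toLp 2 z, 2) with hpdef
  have hp2 : p.2 = 2 := rfl
  have hp : p ∈ UH 8 := by
    show (0 : ℝ) < p.2
    rw [hp2]; norm_num
  obtain ⟨γ, hγ, hmin, z', hz', hcase⟩ := Pool.Agent.Helper86.Lor.reduce_E8_aux hLF hp
  have hq : act γ p ∈ UH 8 := act_mem hγ.1 hp
  have hq' : 0 < (act γ p).2 := hq
  have hγi : γ⁻¹ ∈ OL E8 := (OL E8).inv_mem hγ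
  -- the height of the reduced point is `2`
  have h1 : 1 / (act γ p).2 ≤ 1 / 2 := by
    have h2 := hmin (γ w0) ⟨γ, hγ, rfl⟩
    rw [uval_act hγ.1 _ hp] at h2
    have h3 : γ⁻¹ (γ (w0 : LV 8)) = w0 := γ.symm_apply_apply w0
    rw [h3, uval_w0 hp, hp2] at h2
    exact h2
  have h4 : γ⁻¹ (w0 : LV 8) = w0 := by
    apply ecell_w0 hγi hp2
    rw [← uval_act hγ.1 _ hp, uval_w0 hq]
    exact h1
  have hq2 : (act γ p).2 = 2 := by
    have h5 := uval_act hγ.1 (w0 : LV 8) hp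
    rw [h4, uval_w0 hp, uval_w0 hq, hp2] at h5
    rw [div_eq_div_iff hq'.ne' (by norm_num)] at h5
    linarith
  have hγw0 : γ (w0 : LV 8) = w0 := by
    conv_lhs => rw [← h4]
    exact γ.apply_symm_apply w0
  -- transport of the lattice vectors
  have key : ∀ v ∈ E8, γ⁻¹ (wv v) = wv (γ⁻¹ (wv v)).2.2 ∧ (γ⁻¹ (wv v)).2.2 ∈ E8 := by
    intro v hv'
    have hlat : wv v ∈ lat E8 := by
      obtain ⟨b, hb⟩ := evenLat_E8
      obtain ⟨m, hm⟩ := hb.even v hv'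
      refine ⟨⟨1, by simp [wv]⟩, ⟨m, ?_⟩, hv'⟩
      show ‖v‖ ^ 2 / 2 = m
      rw [hm]; ring
    have hlat2 : γ⁻¹ (wv v) ∈ lat E8 := (hγi.2 _).2 hlat
    have hf : form (γ⁻¹ (wv v)) (γ⁻¹ (wv v)) = 0 := by
      rw [hγi.1.1, ecell_form_self]
      show ‖v‖ ^ 2 - 2 * 1 * (‖v‖ ^ 2 / 2) = 0
      ring
    have hf1 : (γ⁻¹ (wv v)).1 = 1 := by
      have h5 : form (γ⁻¹ (wv v)) w0 = form (wv v) w0 := by
        conv_lhs => rw [← h4]
        rw [hγi.1.1]
      rw [form_w0, form_w0] at h5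
      have h6 : (wv v).1 = 1 := rfl
      rw [h6] at h5
      linarith
    refine ⟨?_, hlat2.2.2⟩
    rw [ecell_form_self, hf1] at hf
    refine Prod.ext ?_ (Prod.ext ?_ ?_)
    · rw [hf1]; rfl
    · show (γ⁻¹ (wv v)).2.1 = ‖(γ⁻¹ (wv v)).2.2‖ ^ 2 / 2
      linarith
    · rfl
  have hch : ∀ v : E 8, ∃ A : Fin 8 → ℤ, v ∈ E8 → hv A = (γ⁻¹ (wv v)).2.2 ∧
      Pool.Agent.Helper19.Un.GA A := by
    intro v
    by_cases h : v ∈ E8
    · obtain ⟨A, hA1, hA2⟩ := ecell_hv (key v h).2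
      exact ⟨A, fun _ => ⟨hA1, hA2⟩⟩
    · exact ⟨0, fun h' => absurd h' h⟩
  choose f hf using hch
  refine ⟨(act γ p).1, f, ?_, ?_, ?_⟩
  · intro v hv'
    obtain ⟨hf1, hf2⟩ := hf v hv'
    refine ⟨hf2, ?_⟩
    rw [ecell_sq8, hf1]
    have h5 := uval_act hγ.1 (wv v) hp
    rw [(key v hv').1, uval_wv _ hp, uval_wv _ hq, hq2, hp2] at h5
    have h6 : ‖(act γ p).1 - v‖ ^ 2 = ‖p.1 - (γ⁻¹ (wv v)).2.2‖ ^ 2 := by
      rw [div_eq_div_iff (by norm_num) (by norm_num)] at h5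
      linarith
    rw [h6]
  · intro v hv' v' hv'' h
    have h5 : (γ⁻¹ (wv v)).2.2 = (γ⁻¹ (wv v')).2.2 := by
      rw [← (hf v hv').1, ← (hf v' hv'').1, h]
    have h6 : γ⁻¹ (wv v) = γ⁻¹ (wv v') := by
      rw [(key v hv').1, (key v' hv'').1, h5]
    have h7 : wv v = wv v' := (γ⁻¹).injective h6
    have h8 : (wv v).2.2 = (wv v').2.2 := by rw [h7]
    exact h8
  · simp only [hz'] at hcase
    exact hcase

end Pool.Agent.Helper2.ECell

namespace Pool.Agent.Helper19.Un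

open Pool.Agent.Helper77.Lor (hv hv_inj hv_mem AS AS_par AS_sum AS_inj AC AC_par AC_sum AC_inj
  dist_AS dist_AC)

theorem st_ECELL : ST_ECELL := by
  intro z
  obtain ⟨q, f, h1, h2, h3⟩ := Pool.Agent.Helper2.ECell.ecell_main z
  rcases h3 with hc | ⟨l, hl, hsum, e0, e1, e2, e3, e4, e5, e6, e7⟩
  · left
    refine ⟨fun a => f (hv (AC a)), fun i => q i - if i = 0 then 1 else 0, ?_, ?_, ?_, ?_⟩
    · intro a a' h
      exact AC_inj (hv_inj (h2 _ (hv_mem (AC_par a) (AC_sum a)) _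
        (hv_mem (AC_par a') (AC_sum a')) h))
    · intro a
      exact (h1 _ (hv_mem (AC_par a) (AC_sum a))).1
    · rw [Fin.sum_univ_eight]
      simpa using hc
    · intro i
      constructor
      · rw [(h1 _ (hv_mem (AC_par _) (AC_sum _))).2, dist_AC]
        simp only [if_true]
        ring
      · rw [(h1 _ (hv_mem (AC_par _) (AC_sum _))).2, dist_AC]
        simp only [Bool.false_eq_true, if_false]
        ring
  · right
    refine ⟨fun j => f (hv (AS j)), l, ?_, ?_, hl, ?_, ?_⟩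
    · intro a a' h
      exact AS_inj (hv_inj (h2 _ (hv_mem (AS_par a) (AS_sum a)) _
        (hv_mem (AS_par a') (AS_sum a')) h))
    · intro a
      exact (h1 _ (hv_mem (AS_par a) (AS_sum a))).1
    · rw [Fin.sum_univ_castSucc, Fin.sum_univ_eight]
      exact hsum
    · intro j
      rw [(h1 _ (hv_mem (AS_par _) (AS_sum _))).2]
      exact dist_AS hsum e0 e1 e2 e3 e4 e5 e6 e7 j

end Pool.Agent.Helper19.Un
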